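import Mathlib

/-!
# Archimedean tolerance graphs whose blocks are chordless suns

We prove that every finite graph all of whose blocks are chordless suns is Archimedean.
A rooted scaled representation `Rep` is constructed for every sun and every root vertex and
is shown to be stable under gluing at a vertex.
-/

set_option autoImplicit false

namespace Pool.Agent.Results.MP_2a9c9f_co.SunBlocks

open Set Filter



/-- `φ` is symmetric, positive valued and Archimedean (on the positive reals). -/
structure IsArchimedeanFun (φ : ℝ → ℝ → ℝ) : Prop where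
  symm : ∀ x y, 0 < x → 0 < y → φ x y = φ y x
  pos : ∀ x y, 0 < x → 0 < y → 0 < φ x y
  left : ∀ c, 0 < c → Tendsto (fun x => φ x c) atTop atTop
  right : ∀ c, 0 < c → Tendsto (fun x => φ c x) atTop atTop

/-- The length of the intersection of the closed intervals `[a, b]` and `[c, d]`. -/
noncomputable def interLength (a b c d : ℝ) : ℝ :=
  (MeasureTheory.volume (Icc a b ∩ Icc c d)).toReal

/-- `G` is a `φ`-tolerance graph. -/
def IsToleranceGraph {V : Type*} (φ : ℝ → ℝ → ℝ) (G : SimpleGraph V) : Prop :=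
  ∃ l r t : V → ℝ, (∀ v, l v ≤ r v) ∧ (∀ v, 0 < t v) ∧
    ∀ u v, u ≠ v → (G.Adj u v ↔ φ (t u) (t v) ≤ interLength (l u) (r u) (l v) (r v))

/-- `G` is Archimedean. -/
def IsArchimedeanGraph {V : Type*} (G : SimpleGraph V) : Prop :=
  ∀ φ : ℝ → ℝ → ℝ, IsArchimedeanFun φ → IsToleranceGraph φ G

/-- The chordless `k`-sun: `Sum.inl i` is the cycle vertex `v_i`, `Sum.inr i` is `u_i`. -/
def sun (k : ℕ) : SimpleGraph (ZMod k ⊕ ZMod k) where
  Adj a b :=
    match a, b with
    | Sum.inl i, Sum.inl j => i ≠ j ∧ (j = i + 1 ∨ i = j + 1)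
    | Sum.inl i, Sum.inr j => i = j ∨ i = j + 1
    | Sum.inr j, Sum.inl i => i = j ∨ i = j + 1
    | Sum.inr _, Sum.inr _ => False
  symm := ⟨by
    rintro (i | i) (j | j) h
    · exact ⟨h.1.symm, h.2.symm⟩
    · exact h
    · exact h
    · exact h⟩
  loopless := ⟨by
    rintro (i | i) h
    · exact h.1 rfl
    · exact h⟩

/-- The vertex set `B` induces a connected subgraph of `G` without a cut vertex. -/
def ConnNoCut {V : Type*} (G : SimpleGraph V) (B : Set V) : Prop :=
  (G.induce B).Connected ∧ ∀ v ∈ B, (G.induce (B \ {v})).Preconnected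

/-- `B` is (the vertex set of) a block of `G`. -/
def IsBlock {V : Type*} (G : SimpleGraph V) (B : Set V) : Prop :=
  Maximal (ConnNoCut G) B

/-! ### Overlaps -/

noncomputable def ov (a b c d : ℝ) : ℝ := max 0 (min b d - max a c)

theorem interLength_eq (a b c d : ℝ) : interLength a b c d = ov a b c d := by
  unfold interLength ov
  rw [Icc_inter_Icc, Real.volume_Icc, ENNReal.toReal_ofReal', max_comm]
  

variable {V : Type*}

/-! ### Blocks -/




/-- connectedness in cut form -/
def CutConn (G : SimpleGraph V) (W : Set V) : Prop :=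
  ∀ A, A ⊆ W → A.Nonempty → (W \ A).Nonempty → ∃ a ∈ A, ∃ b ∈ W \ A, G.Adj a b

theorem preconnected_iff (G : SimpleGraph V) (W : Set V) :
    (G.induce W).Preconnected ↔ CutConn G W := by
  constructor
  · intro h A hA hne hne'
    obtain ⟨a, ha⟩ := hne
    obtain ⟨b, hb⟩ := hne'
    obtain ⟨p⟩ := h ⟨a, hA ha⟩ ⟨b, hb.1⟩
    obtain ⟨d, -, hd1, hd2⟩ := p.exists_boundary_dart {x | (x : V) ∈ A} ha hb.2
    exact ⟨d.fst, hd1, d.snd, ⟨d.snd.2, hd2⟩, d.adj⟩
  · intro h u v
    by_contra hn
    let A : Set V := {x | ∃ hx : x ∈ W, (G.induce W).Reachable u ⟨x, hx⟩}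
    have hA : A ⊆ W := fun x hx => hx.1
    obtain ⟨a, ⟨haW, ha⟩, b, ⟨hbW, hb⟩, hab⟩ := h A hA ⟨u, u.2, SimpleGraph.Reachable.refl _⟩
      ⟨v, v.2, fun hv => hn hv.2⟩
    apply hb
    refine ⟨hbW, ha.trans ?_⟩
    exact SimpleGraph.Adj.reachable (by simpa using hab)

/-- connected without cut vertex, cut form -/
def CNC (G : SimpleGraph V) (B : Set V) : Prop :=
  B.Nonempty ∧ CutConn G B ∧ ∀ v ∈ B, CutConn G (B \ {v})

theorem CutConn.of_subsingleton {G : SimpleGraph V} {W : Set V} (h : W.Subsingleton) :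
    CutConn G W := by
  rintro A hA ⟨a, ha⟩ ⟨b, hb⟩
  exact absurd (h (hA ha) hb.1) (fun hab => hb.2 (hab ▸ ha))

theorem CNC.pair {G : SimpleGraph V} {a c : V} (h : G.Adj a c) : CNC G {a, c} := by
  refine ⟨⟨a, by simp⟩, ?_, ?_⟩
  · rintro A hA ⟨x, hx⟩ ⟨y, hy⟩
    have hx' := hA hx
    have hy' := hy.1
    simp only [mem_insert_iff, mem_singleton_iff] at hx' hy'
    have hne : x ≠ y := fun h => hy.2 (h ▸ hx)
    refine ⟨x, hx, y, hy, ?_⟩
    rcases hx' with rfl | rfl <;> rcases hy' with rfl | rfl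
    · exact absurd rfl hne
    · exact h
    · exact h.symm
    · exact absurd rfl hne
  · intro v hv
    apply CutConn.of_subsingleton
    simp only [mem_insert_iff, mem_singleton_iff] at hv
    rintro x ⟨hx1, hx2⟩ y ⟨hy1, hy2⟩
    simp only [mem_insert_iff, mem_singleton_iff] at hx1 hx2 hy1 hy2
    rcases hv with rfl | rfl <;> rcases hx1 with rfl | rfl <;> rcases hy1 with rfl | rfl <;> simp_all

theorem blocks_induction_aux [Finite V] (G : SimpleGraph V) (P : Set V → V → Prop)
    {W A : Set V} {c : V} (hcW : c ∈ W) (hW : CutConn G W) (hA : A ⊆ W \ {c})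
    (hAne : A.Nonempty)
    (hno : ∀ a ∈ A, ∀ b ∈ (W \ {c}) \ A, ¬ G.Adj a b)
    (hB : ∀ B, Maximal (fun B => B ⊆ W ∧ CNC G B) B → ∀ r ∈ B, P B r) :
    CutConn G (A ∪ {c}) ∧
      ∀ B, Maximal (fun B => B ⊆ (A ∪ {c}) ∧ CNC G B) B → ∀ r ∈ B, P B r := by
  have hconn : CutConn G (A ∪ {c}) := by
    intro X hX hXne hXne'
    -- the side without c
    by_cases hc : c ∈ X
    · -- use complement Y = (A ∪ {c}) \ X ⊆ A
      let Y : Set V := (A ∪ {c}) \ X
      have hYA : Y ⊆ A := by
        rintro y ⟨hy1 | hy1, hy2⟩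
        · exact hy1
        · exact absurd (mem_singleton_iff.mp hy1 ▸ hc) hy2
      have hYW : Y ⊆ W := fun y hy => (hA (hYA hy)).1
      obtain ⟨y, hy, z, hz, hyz⟩ := hW Y hYW hXne' ⟨c, hcW, fun h => h.2 hc⟩
      refine ⟨z, ?_, y, hy, hyz.symm⟩
      by_cases hzc : z = c
      · rw [hzc]; exact hc
      · by_cases hzA : z ∈ A
        · by_contra hzX
          exact hz.2 ⟨Or.inl hzA, hzX⟩
        · exact absurd hyz (hno y (hYA hy) z ⟨⟨hz.1, hzc⟩, hzA⟩)
    · have hXA : X ⊆ A := by
        intro x hx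
        rcases hX hx with h | h
        · exact h
        · exact absurd (mem_singleton_iff.mp h ▸ hx) hc
      have hXW : X ⊆ W := fun y hy => (hA (hXA hy)).1
      obtain ⟨y, hy, z, hz, hyz⟩ := hW X hXW hXne ⟨c, hcW, hc⟩
      refine ⟨y, hy, z, ⟨?_, hz.2⟩, hyz⟩
      by_cases hzc : z = c
      · exact Or.inr hzc
      · left
        by_contra hzA
        exact absurd hyz (hno y (hXA hy) z ⟨⟨hz.1, hzc⟩, hzA⟩)
  refine ⟨hconn, ?_⟩
  intro B hBmax
  apply hB
  refine ⟨⟨fun x hx => ?_, hBmax.1.2⟩, ?_⟩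
  · rcases hBmax.1.1 hx with h | h
    · exact (hA h).1
    · rw [mem_singleton_iff.mp h]; exact hcW
  · rintro B' ⟨hB'W, hB'⟩ hBB'
    -- B' is on one side
    have hside : B' ⊆ A ∪ {c} ∨ B' ∩ A = ∅ := by
      by_contra hcon
      push Not at hcon
      obtain ⟨h1, h2⟩ := hcon
      obtain ⟨x, hx1, hx2⟩ := not_subset.mp h1
      obtain ⟨y, hy1, hy2⟩ := h2
      have hxc : x ≠ c := fun h => hx2 (Or.inr h)
      have hxA : x ∉ A := fun h => hx2 (Or.inl h)
      by_cases hc : c ∈ B'
      · obtain ⟨a, ha, b, hb, hab⟩ := hB'.2.2 c hc (B' ∩ A)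
          (fun z hz => ⟨hz.1, fun h => (hA hz.2).2 h⟩) ⟨y, hy1, hy2⟩
          ⟨x, ⟨hx1, hxc⟩, fun h => hxA h.2⟩
        exact hno a ha.2 b ⟨⟨hB'W hb.1.1, hb.1.2⟩, fun h => hb.2 ⟨hb.1.1, h⟩⟩ hab
      · obtain ⟨a, ha, b, hb, hab⟩ := hB'.2.1 (B' ∩ A) inter_subset_left ⟨y, hy1, hy2⟩
          ⟨x, hx1, fun h => hxA h.2⟩
        refine hno a ha.2 b ⟨⟨hB'W hb.1, ?_⟩, fun h => hb.2 ⟨hb.1, h⟩⟩ hab
        intro h
        rw [mem_singleton_iff] at h
        exact hc (h ▸ hb.1)
    rcases hside with h | h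
    · exact hBmax.2 ⟨h, hB'⟩ hBB'
    · -- B = {c}
      exfalso
      have hBc : B ⊆ {c} := by
        intro x hx
        rcases hBmax.1.1 hx with h' | h'
        · have : x ∈ B' ∩ A := ⟨hBB' hx, h'⟩
          rw [h] at this
          exact absurd this (notMem_empty _)
        · exact h'
      obtain ⟨x, hx⟩ := hBmax.1.2.1
      have hxc : x = c := hBc hx
      subst hxc
      obtain ⟨a, ha⟩ := hAne
      have hane : a ≠ x := fun h => (hA ha).2 h
      obtain ⟨x', hx', b, hb, hab⟩ := hconn {x} (fun y hy => Or.inr hy) ⟨x, rfl⟩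
        ⟨a, Or.inl ha, hane⟩
      rw [mem_singleton_iff] at hx'
      subst hx'
      have hbB : b ∈ B := by
        refine hBmax.2 (y := {b, x'}) ⟨?_, CNC.pair hab.symm⟩ ?_ (by simp)
        · rintro y (rfl | hy)
          · exact hb.1
          · exact Or.inr hy
        · intro y hy
          exact Or.inr (hBc hy)
      exact hb.2 (hBc hbB)

theorem blocks_induction [Finite V] (G : SimpleGraph V) (P : Set V → V → Prop)
    (hglue : ∀ (W1 W2 : Set V) (r c : V), r ∈ W1 → c ∈ W1 → c ∈ W2 →
      (∀ x ∈ W1, x ∈ W2 → x = c) →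
      (∀ x ∈ W1, ∀ y ∈ W2, x ≠ c → y ≠ c → ¬ G.Adj x y) → P W1 r → P W2 c → P (W1 ∪ W2) r) :
    ∀ (n : ℕ) (W : Set V), W.ncard = n → CutConn G W →
      (∀ B, Maximal (fun B => B ⊆ W ∧ CNC G B) B → ∀ r ∈ B, P B r) → ∀ r ∈ W, P W r := by
  intro n
  induction n using Nat.strong_induction_on with
  | _ n ih =>
    intro W hn hW hB r hr
    by_cases hcut : ∀ v ∈ W, CutConn G (W \ {v})
    · exact hB W ⟨⟨Subset.rfl, ⟨r, hr⟩, hW, hcut⟩, fun B' hB' _ => hB'.1⟩ r hr
    · push Not at hcut
      obtain ⟨c, hcW, hc⟩ := hcut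
      unfold CutConn at hc
      push Not at hc
      obtain ⟨A, hA, hAne, hBne, hno⟩ := hc
      have hA' : (W \ {c}) \ A ⊆ W \ {c} := diff_subset
      have hno' : ∀ a ∈ (W \ {c}) \ A, ∀ b ∈ (W \ {c}) \ ((W \ {c}) \ A), ¬ G.Adj a b := by
        intro a ha b hb hab
        have hbA : b ∈ A := by
          by_contra h
          exact hb.2 ⟨hb.1, h⟩
        exact hno b hbA a ha hab.symm
      obtain ⟨c1, b1⟩ := blocks_induction_aux G P hcW hW hA hAne hno hB
      obtain ⟨c2, b2⟩ := blocks_induction_aux G P hcW hW hA' hBne hno' hB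
      have hcard1 : (A ∪ {c}).ncard < n := by
        rw [← hn]
        apply ncard_lt_ncard _ (toFinite W)
        obtain ⟨b, hb⟩ := hBne
        refine ⟨?_, fun h => ?_⟩
        · rintro x (hx | hx)
          · exact (hA hx).1
          · rw [mem_singleton_iff.mp hx]; exact hcW
        · rcases h hb.1.1 with h1 | h1
          · exact hb.2 h1
          · exact hb.1.2 h1
      have hcard2 : ((W \ {c}) \ A ∪ {c}).ncard < n := by
        rw [← hn]
        apply ncard_lt_ncard _ (toFinite W)
        obtain ⟨a, ha⟩ := hAne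
        refine ⟨?_, fun h => ?_⟩
        · rintro x (hx | hx)
          · exact hx.1.1
          · rw [mem_singleton_iff.mp hx]; exact hcW
        · rcases h (hA ha).1 with h1 | h1
          · exact h1.2 ha
          · exact (hA ha).2 h1
      have ih1 := ih _ hcard1 (A ∪ {c}) rfl c1 b1
      have ih2 := ih _ hcard2 ((W \ {c}) \ A ∪ {c}) rfl c2 b2
      have hWeq : W = (A ∪ {c}) ∪ ((W \ {c}) \ A ∪ {c}) := by
        ext x
        constructor
        · intro hx
          by_cases hxc : x = c
          · exact Or.inl (Or.inr hxc)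
          · by_cases hxA : x ∈ A
            · exact Or.inl (Or.inl hxA)
            · exact Or.inr (Or.inl ⟨⟨hx, hxc⟩, hxA⟩)
        · rintro ((hx | hx) | (hx | hx))
          · exact (hA hx).1
          · rw [mem_singleton_iff.mp hx]; exact hcW
          · exact hx.1.1
          · rw [mem_singleton_iff.mp hx]; exact hcW
      by_cases hr1 : r ∈ A ∪ {c}
      · rw [hWeq]
        apply hglue _ _ r c hr1 (Or.inr rfl) (Or.inr rfl)
        · rintro x (hx | hx) (hy | hy)
          · exact absurd hx hy.2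
          · exact hy
          · exact hx
          · exact hx
        · rintro x (hx | hx) y (hy | hy) hxc hyc
          · exact hno x hx y hy
          · exact absurd hy hyc
          · exact absurd hx hxc
          · exact absurd hx hxc
        · exact ih1 r hr1
        · exact ih2 c (Or.inr rfl)
      · have hr2 : r ∈ (W \ {c}) \ A ∪ {c} := by
          rw [hWeq] at hr
          exact hr.resolve_left hr1
        rw [hWeq, union_comm]
        apply hglue _ _ r c hr2 (Or.inr rfl) (Or.inr rfl)
        · rintro x (hx | hx) (hy | hy)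
          · exact absurd hy hx.2
          · exact hy
          · exact hx
          · exact hx
        · rintro x (hx | hx) y (hy | hy) hxc hyc
          · exact fun h => hno y hy x hx h.symm
          · exact absurd hy hyc
          · exact absurd hx hxc
          · exact absurd hx hxc
        · exact ih2 r hr2
        · exact ih1 c (Or.inr rfl)


/-! ### Rooted scaled representations and gluing -/




theorem ov_comm (a b c d : ℝ) : ov a b c d = ov c d a b := by
  unfold ov
  rw [min_comm, max_comm a c]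

theorem ov_nonneg (a b c d : ℝ) : 0 ≤ ov a b c d := le_max_left _ _

theorem ov_zero {a b c d : ℝ} (h : b < c ∨ d < a) : ov a b c d = 0 := by
  unfold ov
  apply max_eq_left
  rcases h with h | h
  · have h1 : min b d ≤ b := min_le_left _ _
    have h2 : c ≤ max a c := le_max_right _ _
    linarith
  · have h1 : min b d ≤ d := min_le_right _ _
    have h2 : a ≤ max a c := le_max_left _ _
    linarith

theorem ov_sub {a b c d : ℝ} (h : a ≤ b) (h1 : c ≤ a) (h2 : b ≤ d) : ov a b c d = b - a := by
  unfold ov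
  rw [min_eq_left h2, max_eq_left h1, max_eq_right (by linarith)]

theorem ov_add (a b c d t : ℝ) : ov (a + t) (b + t) (c + t) (d + t) = ov a b c d := by
  unfold ov
  rw [min_add_add_right, max_add_add_right]
  congr 1
  ring

theorem ov_le_left {a b c d : ℝ} (h : a ≤ b) : ov a b c d ≤ b - a := by
  unfold ov
  apply max_le (by linarith)
  have h1 : min b d ≤ b := min_le_left _ _
  have h2 : a ≤ max a c := le_max_left _ _
  linarith

/-- stretching map for left end points -/
noncomputable def sf (p L x : ℝ) : ℝ := if x ≤ p then x else x + L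

/-- stretching map for right end points -/
noncomputable def sg (p L x : ℝ) : ℝ := if x < p then x else x + L

theorem sf_mono {p L : ℝ} (hL : 0 ≤ L) : Monotone (sf p L) := by
  intro x y hxy
  unfold sf
  split_ifs <;> linarith

theorem sg_mono {p L : ℝ} (hL : 0 ≤ L) : Monotone (sg p L) := by
  intro x y hxy
  unfold sg
  split_ifs <;> linarith

theorem le_sf {p L : ℝ} (hL : 0 ≤ L) (x : ℝ) : x ≤ sf p L x := by
  unfold sf; split_ifs <;> linarith

theorem le_sg {p L : ℝ} (hL : 0 ≤ L) (x : ℝ) : x ≤ sg p L x := by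
  unfold sg; split_ifs <;> linarith

theorem sg_le {p L : ℝ} (hL : 0 ≤ L) (x : ℝ) : sg p L x ≤ x + L := by
  unfold sg; split_ifs <;> linarith

theorem ov_stretch (p L : ℝ) (hL : 0 ≤ L) (a b c d : ℝ) :
    ov (sf p L a) (sg p L b) (sf p L c) (sg p L d) =
      max 0 (sg p L (min b d) - sf p L (max a c)) := by
  unfold ov
  rw [(sf_mono hL).map_max, (sg_mono hL).map_min]

theorem ov_stretch_ge {p L : ℝ} (hL : 0 ≤ L) (a b c d : ℝ) :
    ov a b c d ≤ ov (sf p L a) (sg p L b) (sf p L c) (sg p L d) := by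
  rw [ov_stretch p L hL]
  unfold ov
  generalize min b d = m
  generalize max a c = M
  apply max_le (le_max_left _ _)
  by_cases hM : M ≤ p
  · apply le_max_of_le_right
    have h1 := le_sg (p := p) hL m
    have h2 : sf p L M = M := by unfold sf; rw [if_pos hM]
    linarith
  · by_cases hm : m < p
    · apply le_max_of_le_left
      linarith
    · apply le_max_of_le_right
      have h1 : sg p L m = m + L := by unfold sg; rw [if_neg hm]
      have h2 : sf p L M = M + L := by unfold sf; rw [if_neg hM]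
      linarith

theorem ov_stretch_le {p L : ℝ} (hL : 0 ≤ L) (a b c d : ℝ) :
    ov (sf p L a) (sg p L b) (sf p L c) (sg p L d) ≤ ov a b c d + L := by
  rw [ov_stretch p L hL]
  unfold ov
  generalize min b d = m
  generalize max a c = M
  have h1 := sg_le (p := p) hL m
  have h2 := le_sf (p := p) hL M
  have h3 : m - M ≤ max 0 (m - M) := le_max_right _ _
  have h4 : 0 ≤ max 0 (m - M) := le_max_left _ _
  apply max_le <;> linarith

theorem ov_stretch_le' {p L : ℝ} (hL : 0 ≤ L) {a b c d : ℝ} (h : p < a ∨ b < p) :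
    ov (sf p L a) (sg p L b) (sf p L c) (sg p L d) ≤ ov a b c d := by
  rw [ov_stretch p L hL]
  unfold ov
  have key : sg p L (min b d) - sf p L (max a c) ≤ min b d - max a c := by
    rcases h with h | h
    · have h1 : p < max a c := lt_of_lt_of_le h (le_max_left _ _)
      have h2 : sf p L (max a c) = max a c + L := by unfold sf; rw [if_neg (not_le.mpr h1)]
      have h3 := sg_le (p := p) hL (min b d)
      linarith
    · have h1 : min b d < p := lt_of_le_of_lt (min_le_left _ _) h
      have h2 : sg p L (min b d) = min b d := by unfold sg; rw [if_pos h1]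
      have h3 := le_sf (p := p) hL (max a c)
      linarith
  exact max_le_max le_rfl key

/-- rooted scaled representation -/
def Rep (G : SimpleGraph V) (W : Set V) (r : V) : Prop :=
  ∃ (idx : V → ℕ) (K : ℝ), 1 ≤ K ∧ InjOn idx W ∧ (∀ w ∈ W, idx w ≤ idx r) ∧
    ∀ M : ℕ → ℝ, Monotone M → (∀ j, 0 < M j) → ∃ l R : V → ℝ,
      (∀ w ∈ W, l w ≤ R w) ∧ (∀ w ∈ W, l r ≤ l w ∧ R w ≤ R r) ∧
      (∀ a ∈ W, ∀ b ∈ W, idx a < idx b →
        (G.Adj a b → M (idx b) ≤ ov (l a) (R a) (l b) (R b)) ∧
        (¬ G.Adj a b → ov (l a) (R a) (l b) (R b) ≤ K * M (idx b - 1))) ∧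
      (∀ w ∈ W, ∃ p, l w ≤ p ∧ p ≤ R w ∧ ∀ a ∈ W, idx a < idx w → p < l a ∨ R a < p) ∧
      R r - l r ≤ K * M (idx r)

/-- index shift -/
def sh (i N j : ℕ) : ℕ := if j < i then j else j + N

theorem sh_strictMono (i N : ℕ) : StrictMono (sh i N) := by
  intro a b hab
  unfold sh
  split_ifs <;> omega

theorem sh_le (i N j : ℕ) (hj : 0 < j) : sh i N (j - 1) ≤ sh i N j - 1 := by
  have := sh_strictMono i N (show j - 1 < j by omega)
  omega

theorem rep_glue (G : SimpleGraph V) (W1 W2 : Set V) (r c : V) (hr : r ∈ W1) (hc1 : c ∈ W1)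
    (hc2 : c ∈ W2) (hint : ∀ x ∈ W1, x ∈ W2 → x = c)
    (hno : ∀ x ∈ W1, ∀ y ∈ W2, x ≠ c → y ≠ c → ¬ G.Adj x y)
    (h1 : Rep G W1 r) (h2 : Rep G W2 c) : Rep G (W1 ∪ W2) r := by
  classical
  obtain ⟨i1, K1, hK1, inj1, top1, rep1⟩ := h1
  obtain ⟨i2, K2, hK2, inj2, top2, rep2⟩ := h2
  set ic := i1 c with hic
  set N := i2 c with hN
  let idx : V → ℕ := fun v => if v ∈ W1 then sh ic N (i1 v) else ic + i2 v
  have idx1 : ∀ v ∈ W1, idx v = sh ic N (i1 v) := fun v hv => if_pos hv
  have idx2 : ∀ v, v ∉ W1 → idx v = ic + i2 v := fun v hv => if_neg hv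
  have hmem : ∀ x ∈ W1 ∪ W2, x ∉ W1 → x ∈ W2 ∧ x ≠ c ∧ i2 x < N := by
    intro x hx hx1
    have hx2 : x ∈ W2 := hx.resolve_left hx1
    have hxc : x ≠ c := fun h => hx1 (h ▸ hc1)
    refine ⟨hx2, hxc, lt_of_le_of_ne (top2 x hx2) (fun h => hxc (inj2 hx2 hc2 h))⟩
  have shc : sh ic N ic = ic + N := by unfold sh; simp
  refine ⟨idx, K1 + K2 + 2, by linarith, ?_, ?_, ?_⟩
  · -- injectivity
    intro x hx y hy hxy
    by_cases hx1 : x ∈ W1 <;> by_cases hy1 : y ∈ W1
    · rw [idx1 x hx1, idx1 y hy1] at hxy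
      exact inj1 hx1 hy1 ((sh_strictMono ic N).injective hxy)
    · obtain ⟨-, -, hlt⟩ := hmem y hy hy1
      rw [idx1 x hx1, idx2 y hy1] at hxy
      unfold sh at hxy
      split_ifs at hxy <;> omega
    · obtain ⟨-, -, hlt⟩ := hmem x hx hx1
      rw [idx1 y hy1, idx2 x hx1] at hxy
      unfold sh at hxy
      split_ifs at hxy <;> omega
    · rw [idx2 x hx1, idx2 y hy1] at hxy
      exact inj2 (hmem x hx hx1).1 (hmem y hy hy1).1 (by omega)
  · intro w hw
    rw [idx1 r hr]
    by_cases hw1 : w ∈ W1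
    · rw [idx1 w hw1]
      exact (sh_strictMono ic N).monotone (top1 w hw1)
    · obtain ⟨-, -, hlt⟩ := hmem w hw hw1
      rw [idx2 w hw1]
      have := top1 c hc1
      unfold sh
      split_ifs <;> omega
  · intro M hM hMpos
    obtain ⟨l1, R1, lr1, cont1, adj1, pt1, len1⟩ := rep1 (fun j => M (sh ic N j))
      (hM.comp (sh_strictMono ic N).monotone) (fun j => hMpos _)
    obtain ⟨l2, R2, lr2, cont2, adj2, pt2, len2⟩ := rep2 (fun j => M (ic + j))
      (fun a b hab => hM (by omega)) (fun j => hMpos _)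
    obtain ⟨p, hp1, hp2, hp3⟩ := pt1 c hc1
    set δ := M (ic + N) with hδ
    have hδpos : 0 < δ := hMpos _
    set L := (R2 c - l2 c) + 2 * δ with hLdef
    have hlen2c : 0 ≤ R2 c - l2 c := by have := lr2 c hc2; linarith
    have hL : 0 ≤ L := by linarith
    have hLle : L ≤ (K2 + 2) * δ := by
      have : R2 c - l2 c ≤ K2 * δ := len2
      rw [hLdef]; linarith
    set t := p + δ - l2 c with ht
    let l : V → ℝ := fun v => if v ∈ W1 then sf p L (l1 v) else l2 v + t
    let R : V → ℝ := fun v => if v ∈ W1 then sg p L (R1 v) else R2 v + t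
    have l_1 : ∀ v ∈ W1, l v = sf p L (l1 v) := fun v hv => if_pos hv
    have l_2 : ∀ v, v ∉ W1 → l v = l2 v + t := fun v hv => if_neg hv
    have R_1 : ∀ v ∈ W1, R v = sg p L (R1 v) := fun v hv => if_pos hv
    have R_2 : ∀ v, v ∉ W1 → R v = R2 v + t := fun v hv => if_neg hv
    -- location of the inserted intervals
    have loc : ∀ x ∈ W1 ∪ W2, x ∉ W1 → p + δ ≤ l x ∧ l x ≤ R x ∧ R x ≤ p + L - δ := by
      intro x hx hx1
      obtain ⟨hx2, -, -⟩ := hmem x hx hx1
      rw [l_2 x hx1, R_2 x hx1]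
      have h1 := cont2 x hx2
      have h2 := lr2 x hx2
      refine ⟨?_, ?_, ?_⟩
      · rw [ht]; linarith [h1.1]
      · linarith
      · rw [ht, hLdef]; linarith [h1.2]
    have lr : ∀ w ∈ W1 ∪ W2, l w ≤ R w := by
      intro w hw
      by_cases hw1 : w ∈ W1
      · rw [l_1 w hw1, R_1 w hw1]
        have h := lr1 w hw1
        by_cases h2 : l1 w ≤ p
        · have h3 : sf p L (l1 w) = l1 w := by unfold sf; rw [if_pos h2]
          rw [h3]
          exact h.trans (le_sg hL _)
        · have h3 : sf p L (l1 w) = l1 w + L := by unfold sf; rw [if_neg h2]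
          have h4 : sg p L (R1 w) = R1 w + L := by
            unfold sg; rw [if_neg (by linarith)]
          rw [h3, h4]; linarith
      · exact (loc w hw hw1).2.1
    -- intervals of W1 missing p
    have miss : ∀ b ∈ W1, (p < l1 b ∨ R1 b < p) → (p + L < l b ∨ R b < p) := by
      intro b hb h
      rw [l_1 b hb, R_1 b hb]
      rcases h with h | h
      · left
        have h3 : sf p L (l1 b) = l1 b + L := by unfold sf; rw [if_neg (by linarith)]
        rw [h3]; linarith
      · right
        have h3 : sg p L (R1 b) = R1 b := by unfold sg; rw [if_pos h]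
        rw [h3]; exact h
    refine ⟨l, R, lr, ?_, ?_, ?_, ?_⟩
    · -- containment in root
      intro w hw
      have hc := cont1 c hc1
      have hcc := lr1 c hc1
      by_cases hw1 : w ∈ W1
      · rw [l_1 w hw1, R_1 w hw1, l_1 r hr, R_1 r hr]
        exact ⟨sf_mono hL (cont1 w hw1).1, sg_mono hL (cont1 w hw1).2⟩
      · have h := loc w hw hw1
        rw [l_1 r hr, R_1 r hr]
        have h3 : sf p L (l1 r) = l1 r := by unfold sf; rw [if_pos (by linarith [hc.1])]
        have h4 : sg p L (R1 r) = R1 r + L := by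
          unfold sg; rw [if_neg (by linarith [hc.2])]
        rw [h3, h4]
        constructor
        · linarith [h.1, hc.1]
        · linarith [h.2.2, hc.2]
    · -- adjacency
      intro a ha b hb hab
      by_cases ha1 : a ∈ W1 <;> by_cases hb1 : b ∈ W1
      · rw [idx1 a ha1, idx1 b hb1] at hab
        have hab1 : i1 a < i1 b := (sh_strictMono ic N).lt_iff_lt.mp hab
        rw [l_1 a ha1, R_1 a ha1, l_1 b hb1, R_1 b hb1, idx1 b hb1]
        obtain ⟨h1, h2⟩ := adj1 a ha1 b hb1 hab1
        refine ⟨fun h => (h1 h).trans (ov_stretch_ge hL _ _ _ _), fun h => ?_⟩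
        have h3 := h2 h
        have h4 : M (sh ic N (i1 b - 1)) ≤ M (sh ic N (i1 b) - 1) := hM (sh_le _ _ _ (by omega))
        have h5 := hMpos (sh ic N (i1 b) - 1)
        have h6 : K1 * M (sh ic N (i1 b - 1)) ≤ K1 * M (sh ic N (i1 b) - 1) :=
          mul_le_mul_of_nonneg_left h4 (by linarith)
        by_cases hpa : p < l1 a ∨ R1 a < p
        · have h7 := ov_stretch_le' hL (c := l1 b) (d := R1 b) hpa
          nlinarith
        · by_cases hpb : p < l1 b ∨ R1 b < p
          · have h7 := ov_stretch_le' hL (c := l1 a) (d := R1 a) hpb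
            rw [ov_comm, ov_comm (l1 b)] at h7
            nlinarith
          · have hia : ic ≤ i1 a := by
              by_contra hcon
              exact hpa (hp3 a ha1 (by omega))
            have h8 := ov_stretch_le (p := p) hL (l1 a) (R1 a) (l1 b) (R1 b)
            have h9 : M (ic + N) ≤ M (sh ic N (i1 b) - 1) := by
              apply hM
              unfold sh
              split_ifs <;> omega
            have h10 : (K2 + 2) * δ ≤ (K2 + 2) * M (sh ic N (i1 b) - 1) :=
              mul_le_mul_of_nonneg_left h9 (by linarith)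
            have h11 : (K1 + K2 + 2) * M (sh ic N (i1 b) - 1) =
              K1 * M (sh ic N (i1 b) - 1) + (K2 + 2) * M (sh ic N (i1 b) - 1) := by ring
            rw [h11]
            linarith
      · -- a in W1, b new
        obtain ⟨hb2, hbc, hblt⟩ := hmem b hb hb1
        rw [idx1 a ha1, idx2 b hb1] at hab
        have hia : i1 a < ic := by
          unfold sh at hab
          split_ifs at hab <;> omega
        have hac : a ≠ c := by
          intro h; rw [h] at hia; omega
        have hm := miss a ha1 (hp3 a ha1 hia)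
        have hloc := loc b hb hb1
        refine ⟨fun h => absurd h (hno a ha1 b hb2 hac hbc), fun _ => ?_⟩
        have h0 : ov (l a) (R a) (l b) (R b) = 0 := by
          apply ov_zero
          rcases hm with hm | hm
          · right; linarith [hloc.2.2]
          · left; linarith [hloc.1]
        rw [h0]
        have := hMpos (idx b - 1)
        positivity
      · -- a new, b in W1
        obtain ⟨ha2, hac, halt⟩ := hmem a ha ha1
        rw [idx1 b hb1, idx2 a ha1] at hab
        have hib : ic ≤ i1 b := by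
          unfold sh at hab
          split_ifs at hab <;> omega
        have hloc := loc a ha ha1
        have hle : ov (l a) (R a) (l b) (R b) ≤ R a - l a := ov_le_left hloc.2.1
        have hRa : R a - l a = R2 a - l2 a := by rw [l_2 a ha1, R_2 a ha1]; ring
        rw [idx1 b hb1]
        have hshb : sh ic N (i1 b) = i1 b + N := by unfold sh; rw [if_neg (by omega)]
        rw [hshb]
        by_cases hbc : b = c
        · subst hbc
          obtain ⟨h1, h2⟩ := adj2 a ha2 b hc2 halt
          have hcc := lr1 b hc1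
          have hov : ov (l a) (R a) (l b) (R b) = ov (l2 a) (R2 a) (l2 b) (R2 b) := by
            rw [ov_sub (lr2 a ha2) (cont2 a ha2).1 (cont2 a ha2).2, ← hRa]
            apply ov_sub hloc.2.1
            · rw [l_1 b hc1]
              have h3 : sf p L (l1 b) = l1 b := by unfold sf; rw [if_pos hp1]
              rw [h3]; linarith [hloc.1]
            · rw [R_1 b hc1]
              have h4 : sg p L (R1 b) = R1 b + L := by unfold sg; rw [if_neg (by linarith)]
              rw [h4]; linarith [hloc.2.2]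
          rw [hov]
          refine ⟨fun h => h1 h, fun h => ?_⟩
          have h3 := h2 h
          have h5 : ic + (i2 b - 1) = i1 b + N - 1 := by omega
          simp only [h5] at h3
          have h4 := hMpos (i1 b + N - 1)
          nlinarith
        · refine ⟨fun h => absurd h.symm (hno b hb1 a ha2 hbc hac), fun _ => ?_⟩
          have hib' : ic < i1 b := lt_of_le_of_ne hib (fun h => hbc (inj1 hb1 hc1 h.symm))
          have h3 : R2 a - l2 a ≤ R2 c - l2 c := by
            have := cont2 a ha2; linarith [this.1, this.2]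
          have h4 : R2 c - l2 c ≤ K2 * δ := len2
          have h5 : δ ≤ M (i1 b + N - 1) := hM (by omega)
          have h6 : K2 * δ ≤ K2 * M (i1 b + N - 1) := mul_le_mul_of_nonneg_left h5 (by linarith)
          have h7 := hMpos (i1 b + N - 1)
          nlinarith
      · obtain ⟨ha2, hac, halt⟩ := hmem a ha ha1
        obtain ⟨hb2, hbc, hblt⟩ := hmem b hb hb1
        rw [idx2 a ha1, idx2 b hb1] at hab
        have hab2 : i2 a < i2 b := by omega
        rw [l_2 a ha1, l_2 b hb1, R_2 a ha1, R_2 b hb1, ov_add, idx2 b hb1]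
        obtain ⟨h1, h2⟩ := adj2 a ha2 b hb2 hab2
        refine ⟨fun h => h1 h, fun h => ?_⟩
        have h3 := h2 h
        have h5 : ic + (i2 b - 1) = ic + i2 b - 1 := by omega
        simp only [h5] at h3
        have h4 := hMpos (ic + i2 b - 1)
        nlinarith
    · -- points
      intro w hw
      by_cases hw1 : w ∈ W1
      · obtain ⟨q, hq1, hq2, hq3⟩ := pt1 w hw1
        refine ⟨sf p L q, ?_, ?_, ?_⟩
        · rw [l_1 w hw1]; exact sf_mono hL hq1
        · rw [R_1 w hw1]
          by_cases hqp : q ≤ p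
          · have h3 : sf p L q = q := by unfold sf; rw [if_pos hqp]
            rw [h3]; exact hq2.trans (le_sg hL _)
          · have h3 : sf p L q = q + L := by unfold sf; rw [if_neg hqp]
            have h4 : sg p L (R1 w) = R1 w + L := by unfold sg; rw [if_neg (by linarith)]
            rw [h3, h4]; linarith
        · intro a ha haw
          by_cases ha1 : a ∈ W1
          · rw [idx1 a ha1, idx1 w hw1] at haw
            have haw1 : i1 a < i1 w := (sh_strictMono ic N).lt_iff_lt.mp haw
            rw [l_1 a ha1, R_1 a ha1]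
            rcases hq3 a ha1 haw1 with h | h
            · left
              by_cases hqp : q ≤ p
              · have h3 : sf p L q = q := by unfold sf; rw [if_pos hqp]
                rw [h3]; exact lt_of_lt_of_le h (le_sf hL _)
              · have h3 : sf p L q = q + L := by unfold sf; rw [if_neg hqp]
                have h4 : sf p L (l1 a) = l1 a + L := by
                  unfold sf; rw [if_neg (by linarith)]
                rw [h3, h4]; linarith
            · right
              by_cases hqp : q ≤ p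
              · have h3 : sf p L q = q := by unfold sf; rw [if_pos hqp]
                have h4 : sg p L (R1 a) = R1 a := by unfold sg; rw [if_pos (by linarith)]
                rw [h3, h4]; exact h
              · have h3 : sf p L q = q + L := by unfold sf; rw [if_neg hqp]
                have h4 := sg_le (p := p) hL (R1 a)
                rw [h3]; linarith
          · have hloc := loc a ha ha1
            by_cases hqp : q ≤ p
            · have h3 : sf p L q = q := by unfold sf; rw [if_pos hqp]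
              left; rw [h3]; linarith [hloc.1]
            · have h3 : sf p L q = q + L := by unfold sf; rw [if_neg hqp]
              right; rw [h3]; linarith [hloc.2.2]
      · obtain ⟨hw2, hwc, hwlt⟩ := hmem w hw hw1
        obtain ⟨q, hq1, hq2, hq3⟩ := pt2 w hw2
        refine ⟨q + t, ?_, ?_, ?_⟩
        · rw [l_2 w hw1]; linarith
        · rw [R_2 w hw1]; linarith
        · intro a ha haw
          by_cases ha1 : a ∈ W1
          · rw [idx1 a ha1, idx2 w hw1] at haw
            have hia : i1 a < ic := by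
              unfold sh at haw
              split_ifs at haw <;> omega
            have hm := miss a ha1 (hp3 a ha1 hia)
            have hcw := cont2 w hw2
            rcases hm with hm | hm
            · left
              have : q + t ≤ p + L := by rw [ht, hLdef]; linarith [hcw.2]
              linarith
            · right
              have : p ≤ q + t := by rw [ht]; linarith [hcw.1]
              linarith
          · obtain ⟨ha2, hac, halt⟩ := hmem a ha ha1
            rw [idx2 a ha1, idx2 w hw1] at haw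
            rw [l_2 a ha1, R_2 a ha1]
            rcases hq3 a ha2 (by omega) with h | h
            · left; linarith
            · right; linarith
    · -- total length
      have hc := cont1 c hc1
      have hcc := lr1 c hc1
      rw [l_1 r hr, R_1 r hr, idx1 r hr]
      have h3 : sf p L (l1 r) = l1 r := by unfold sf; rw [if_pos (by linarith [hc.1])]
      have h4 : sg p L (R1 r) = R1 r + L := by
        unfold sg; rw [if_neg (by linarith [hc.2])]
      rw [h3, h4]
      have h5 : M (ic + N) ≤ M (sh ic N (i1 r)) := by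
        apply hM
        have := top1 c hc1
        unfold sh
        split_ifs <;> omega
      have h6 : (K2 + 2) * δ ≤ (K2 + 2) * M (sh ic N (i1 r)) :=
        mul_le_mul_of_nonneg_left h5 (by linarith)
      have h7 : R1 r - l1 r ≤ K1 * M (sh ic N (i1 r)) := len1
      have h8 : (K1 + K2 + 2) * M (sh ic N (i1 r)) =
        K1 * M (sh ic N (i1 r)) + (K2 + 2) * M (sh ic N (i1 r)) := by ring
      rw [h8]
      linarith


/-! ### Representations from cell patterns -/

theorem ov_le_zero_of {a b c d : ℝ} (h : b ≤ c ∨ d ≤ a) : ov a b c d = 0 := by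
  unfold ov
  apply max_eq_left
  rcases h with h | h
  · have h1 : min b d ≤ b := min_le_left _ _
    have h2 : c ≤ max a c := le_max_right _ _
    linarith
  · have h1 : min b d ≤ d := min_le_right _ _
    have h2 : a ≤ max a c := le_max_left _ _
    linarith

theorem ov_ge_cell {a b c d x y : ℝ} (h1 : a ≤ x) (h2 : c ≤ x) (h3 : y ≤ b) (h4 : y ≤ d) :
    y - x ≤ ov a b c d := by
  unfold ov
  apply le_max_of_le_right
  have h5 : y ≤ min b d := le_min h3 h4
  have h6 : max a c ≤ x := max_le h1 h2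
  linarith


noncomputable def pos (M : ℕ → ℝ) (ρ : ℕ → ℕ) (n : ℕ) : ℝ := ∑ j ∈ Finset.range n, M (ρ j)

theorem pos_succ (M : ℕ → ℝ) (ρ : ℕ → ℕ) (n : ℕ) :
    pos M ρ (n + 1) = pos M ρ n + M (ρ n) := Finset.sum_range_succ _ _

theorem pos_strictMono {M : ℕ → ℝ} (hM : ∀ j, 0 < M j) (ρ : ℕ → ℕ) : StrictMono (pos M ρ) := by
  apply strictMono_nat_of_lt_succ
  intro n
  rw [pos_succ]
  linarith [hM (ρ n)]

theorem pos_le {M : ℕ → ℝ} {ρ : ℕ → ℕ} {Z : ℝ} {s : ℕ} :
    ∀ e, s ≤ e → (∀ j, s ≤ j → j < e → M (ρ j) ≤ Z) →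
      pos M ρ e - pos M ρ s ≤ ((e : ℝ) - s) * Z := by
  intro e hse
  induction e, hse using Nat.le_induction with
  | base => intro _; simp
  | succ n hn ih =>
    intro h
    have h1 := ih (fun j hj hj' => h j hj (by omega))
    have h2 := h n hn (by omega)
    rw [pos_succ]
    push_cast
    nlinarith

/-- the rooted representation given by a pattern of cells -/
theorem rep_of_cells (G : SimpleGraph V) (r : V) (idx s e : V → ℕ) (ρ : ℕ → ℕ)
    (hinj : Function.Injective idx) (htop : ∀ w, idx w ≤ idx r)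
    (hse : ∀ w, s w < e w) (hs : ∀ w, s r ≤ s w) (he : ∀ w, e w ≤ e r)
    (hρ : ∀ j, ρ j ≤ idx r)
    (hadj : ∀ a b, idx a < idx b → G.Adj a b →
      ∃ j, s a ≤ j ∧ s b ≤ j ∧ j < e a ∧ j < e b ∧ idx b ≤ ρ j)
    (hnadj : ∀ a b, idx a < idx b → ¬ G.Adj a b →
      e a ≤ s b ∨ e b ≤ s a ∨ ∀ j, s a ≤ j → j < e a → ρ j < idx b)
    (hpt : ∀ w, ∃ j, s w ≤ j ∧ j < e w ∧ ∀ a, idx a < idx w → j < s a ∨ e a ≤ j) :
    Rep G univ r := by
  refine ⟨idx, (e r : ℝ) + 1, by have : (0:ℝ) ≤ (e r : ℝ) := Nat.cast_nonneg _; linarith,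
    hinj.injOn, fun w _ => htop w, ?_⟩
  intro M hM hMpos
  have hpos := pos_strictMono hMpos ρ
  have hmono := hpos.monotone
  have hK : (0:ℝ) ≤ (e r : ℝ) := Nat.cast_nonneg _
  refine ⟨fun v => pos M ρ (s v), fun v => pos M ρ (e v), fun w _ => hmono (hse w).le,
    fun w _ => ⟨hmono (hs w), hmono (he w)⟩, ?_, ?_, ?_⟩
  · intro a _ b _ hab
    constructor
    · intro h
      obtain ⟨j, h1, h2, h3, h4, h5⟩ := hadj a b hab h
      have h6 := ov_ge_cell (hmono h1) (hmono h2) (hmono (Nat.succ_le_of_lt h3))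
        (hmono (Nat.succ_le_of_lt h4))
      have h7 := pos_succ M ρ j
      have h8 := hM h5
      simp only [Nat.succ_eq_add_one] at h6
      linarith
    · intro h
      have h9 := hMpos (idx b - 1)
      rcases hnadj a b hab h with h1 | h1 | h1
      · rw [ov_le_zero_of (Or.inl (hmono h1))]
        positivity
      · rw [ov_le_zero_of (Or.inr (hmono h1))]
        positivity
      · have h2 : ov (pos M ρ (s a)) (pos M ρ (e a)) (pos M ρ (s b)) (pos M ρ (e b)) ≤
          pos M ρ (e a) - pos M ρ (s a) := ov_le_left (hmono (hse a).le)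
        have h3 : pos M ρ (e a) - pos M ρ (s a) ≤ ((e a : ℝ) - s a) * M (idx b - 1) :=
          pos_le (e a) (hse a).le (fun j hj hj' => hM (by have := h1 j hj hj'; omega))
        have h4 : ((e a : ℝ) - s a) * M (idx b - 1) ≤ ((e r : ℝ) + 1) * M (idx b - 1) := by
          apply mul_le_mul_of_nonneg_right _ h9.le
          have h5 : (e a : ℝ) ≤ e r := by exact_mod_cast he a
          have h6 : (0 : ℝ) ≤ s a := Nat.cast_nonneg _
          linarith
        linarith
  · intro w _
    obtain ⟨j, h1, h2, h3⟩ := hpt w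
    have hj : pos M ρ j < pos M ρ (j + 1) := hpos (Nat.lt_succ_self j)
    refine ⟨(pos M ρ j + pos M ρ (j + 1)) / 2, ?_, ?_, ?_⟩
    · have := hmono h1
      linarith
    · have := hmono (Nat.succ_le_of_lt h2)
      simp only [Nat.succ_eq_add_one] at this
      linarith
    · intro a _ haw
      rcases h3 a haw with h | h
      · left
        have := hmono (Nat.succ_le_of_lt h)
        simp only [Nat.succ_eq_add_one] at this
        linarith
      · right
        have := hmono h
        linarith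
  · have h3 : pos M ρ (e r) - pos M ρ (s r) ≤ ((e r : ℝ) - s r) * M (idx r) :=
      pos_le (e r) (hse r).le (fun j hj hj' => hM (hρ j))
    have h6 : (0 : ℝ) ≤ s r := Nat.cast_nonneg _
    have h9 := hMpos (idx r)
    nlinarith


/-! ### The suns -/



theorem eq_add_one_iff {k : ℕ} (hk : 3 ≤ k) (i j : ZMod k) :
    i = j + 1 ↔ (i.val = j.val + 1 ∨ (i.val = 0 ∧ j.val + 1 = k)) := by
  have : NeZero k := ⟨by omega⟩
  have : Fact (1 < k) := ⟨by omega⟩
  have hi := ZMod.val_lt i
  have hj := ZMod.val_lt j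
  have h1 : (j + 1).val = (j.val + 1) % k := by
    rw [ZMod.val_add, ZMod.val_one]
  rw [← (ZMod.val_injective k).eq_iff, h1]
  by_cases h : j.val + 1 = k
  · rw [h, Nat.mod_self]
    omega
  · rw [Nat.mod_eq_of_lt (by omega)]
    omega

theorem sun_ll {k : ℕ} (hk : 3 ≤ k) (i j : ZMod k) :
    (sun k).Adj (Sum.inl i) (Sum.inl j) ↔
      (i.val = j.val + 1 ∨ (i.val = 0 ∧ j.val + 1 = k)) ∨
      (j.val = i.val + 1 ∨ (j.val = 0 ∧ i.val + 1 = k)) := by
  rw [← eq_add_one_iff hk, ← eq_add_one_iff hk]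
  constructor
  · rintro ⟨-, h | h⟩
    · exact Or.inr h
    · exact Or.inl h
  · intro h
    refine ⟨?_, h.symm⟩
    intro hij
    have : Fact (1 < k) := ⟨by omega⟩
    subst hij
    simp at h

theorem sun_lr {k : ℕ} (hk : 3 ≤ k) (i j : ZMod k) :
    (sun k).Adj (Sum.inl i) (Sum.inr j) ↔
      i.val = j.val ∨ (i.val = j.val + 1 ∨ (i.val = 0 ∧ j.val + 1 = k)) := by
  have : NeZero k := ⟨by omega⟩
  rw [← eq_add_one_iff hk, (ZMod.val_injective k).eq_iff]
  rfl

theorem sun_rl {k : ℕ} (hk : 3 ≤ k) (i j : ZMod k) :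
    (sun k).Adj (Sum.inr j) (Sum.inl i) ↔
      i.val = j.val ∨ (i.val = j.val + 1 ∨ (i.val = 0 ∧ j.val + 1 = k)) := by
  rw [(sun k).adj_comm, sun_lr hk]

theorem sun_rr {k : ℕ} (i j : ZMod k) : ¬ (sun k).Adj (Sum.inr j) (Sum.inr i) := fun h => h

/-- the rotations of the sun -/
def sunRot (k : ℕ) (c : ZMod k) : sun k ≃g sun k where
  toEquiv := Equiv.sumCongr (Equiv.subRight c) (Equiv.subRight c)
  map_rel_iff' := by
    have h : ∀ i j : ZMod k, i - c = j - c + 1 ↔ i = j + 1 := by
      intro i j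
      rw [show j - c + 1 = (j + 1) - c by ring, sub_left_inj]
    rintro (i | i) (j | j) <;> simp [sun, h, sub_left_inj]

/-- indices, starts and ends for the root `v_0` -/
def idxV (k : ℕ) : ZMod k ⊕ ZMod k → ℕ
  | Sum.inl i => if i.val = 0 then 2 * k - 1 else k + i.val - 1
  | Sum.inr i => i.val
def sV (k : ℕ) : ZMod k ⊕ ZMod k → ℕ
  | Sum.inl i => if i.val = 0 then 0 else 4 * i.val - 3
  | Sum.inr i => 4 * i.val
def eV (k : ℕ) : ZMod k ⊕ ZMod k → ℕ
  | Sum.inl i => if i.val = 0 then 4 * k else 4 * i.val + 2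
  | Sum.inr i => 4 * i.val + 3
def rhoV (k : ℕ) (j : ℕ) : ℕ :=
  if j = 0 ∨ j = 3 ∨ j = 4 * k - 5 ∨ j = 4 * k - 2 then 2 * k - 1 else 2 * k - 2

/-- indices, starts and ends for the root `u_0` -/
def idxU (k : ℕ) : ZMod k ⊕ ZMod k → ℕ
  | Sum.inl i => if i.val = 0 then 2 * k - 2 else k - 2 + i.val
  | Sum.inr i => if i.val = 0 then 2 * k - 1 else i.val - 1
def sU (k : ℕ) : ZMod k ⊕ ZMod k → ℕ
  | Sum.inl i => if i.val = 0 then 2 else if i.val = 1 then 0 else 4 * i.val - 3
  | Sum.inr i => if i.val = 0 then 0 else 4 * i.val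
def eU (k : ℕ) : ZMod k ⊕ ZMod k → ℕ
  | Sum.inl i => if i.val = 0 then 4 * k + 1 else 4 * i.val + 2
  | Sum.inr i => if i.val = 0 then 4 * k + 2 else 4 * i.val + 3
def rhoU (k : ℕ) (j : ℕ) : ℕ :=
  if j = 0 ∨ j = 4 * k then 2 * k - 1 else
    if j = 2 ∨ j = 4 * k - 5 ∨ j = 4 * k - 2 then 2 * k - 2 else 2 * k - 3

theorem V_inl (k : ℕ) (i : ZMod k) :
    (i.val = 0 ∧ idxV k (Sum.inl i) = 2 * k - 1 ∧ sV k (Sum.inl i) = 0 ∧
      eV k (Sum.inl i) = 4 * k) ∨
    (i.val ≠ 0 ∧ idxV k (Sum.inl i) = k + i.val - 1 ∧ sV k (Sum.inl i) = 4 * i.val - 3 ∧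
      eV k (Sum.inl i) = 4 * i.val + 2) := by
  by_cases h : i.val = 0
  · left; simp [idxV, sV, eV, h]
  · right; simp [idxV, sV, eV, h]

theorem V_inr (k : ℕ) (i : ZMod k) :
    idxV k (Sum.inr i) = i.val ∧ sV k (Sum.inr i) = 4 * i.val ∧
      eV k (Sum.inr i) = 4 * i.val + 3 := ⟨rfl, rfl, rfl⟩

theorem rhoV_spec (k j : ℕ) :
    ((j = 0 ∨ j = 3 ∨ j = 4 * k - 5 ∨ j = 4 * k - 2) ∧ rhoV k j = 2 * k - 1) ∨
    (¬ (j = 0 ∨ j = 3 ∨ j = 4 * k - 5 ∨ j = 4 * k - 2) ∧ rhoV k j = 2 * k - 2) := by
  unfold rhoV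
  split_ifs with h
  · exact Or.inl ⟨h, rfl⟩
  · exact Or.inr ⟨h, rfl⟩

theorem U_inl {k : ℕ} (hk : 3 ≤ k) (i : ZMod k) :
    (i.val = 0 ∧ idxU k (Sum.inl i) = 2 * k - 2 ∧ sU k (Sum.inl i) = 2 ∧
      eU k (Sum.inl i) = 4 * k + 1) ∨
    (i.val = 1 ∧ idxU k (Sum.inl i) = k - 1 ∧ sU k (Sum.inl i) = 0 ∧
      eU k (Sum.inl i) = 6) ∨
    (2 ≤ i.val ∧ idxU k (Sum.inl i) = k - 2 + i.val ∧ sU k (Sum.inl i) = 4 * i.val - 3 ∧
      eU k (Sum.inl i) = 4 * i.val + 2) := by
  by_cases h : i.val = 0
  · left; simp [idxU, sU, eU, h]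
  · right
    by_cases h1 : i.val = 1
    · left
      simp [idxU, sU, eU, h1]
      omega
    · right; simp [idxU, sU, eU, h, h1]; omega

theorem U_inr (k : ℕ) (i : ZMod k) :
    (i.val = 0 ∧ idxU k (Sum.inr i) = 2 * k - 1 ∧ sU k (Sum.inr i) = 0 ∧
      eU k (Sum.inr i) = 4 * k + 2) ∨
    (i.val ≠ 0 ∧ idxU k (Sum.inr i) = i.val - 1 ∧ sU k (Sum.inr i) = 4 * i.val ∧
      eU k (Sum.inr i) = 4 * i.val + 3) := by
  by_cases h : i.val = 0
  · left; simp [idxU, sU, eU, h]
  · right; simp [idxU, sU, eU, h]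

theorem rhoU_spec (k j : ℕ) :
    ((j = 0 ∨ j = 4 * k) ∧ rhoU k j = 2 * k - 1) ∨
    (¬ (j = 0 ∨ j = 4 * k) ∧ (j = 2 ∨ j = 4 * k - 5 ∨ j = 4 * k - 2) ∧ rhoU k j = 2 * k - 2) ∨
    (¬ (j = 0 ∨ j = 4 * k) ∧ ¬ (j = 2 ∨ j = 4 * k - 5 ∨ j = 4 * k - 2) ∧
      rhoU k j = 2 * k - 3) := by
  unfold rhoU
  split_ifs with h h1
  · exact Or.inl ⟨h, rfl⟩
  · exact Or.inr (Or.inl ⟨h, h1, rfl⟩)
  · exact Or.inr (Or.inr ⟨h, h1, rfl⟩)

theorem sun_rep_v {k : ℕ} (hk : 3 ≤ k) : Rep (sun k) univ (Sum.inl 0) := by
  have : NeZero k := ⟨by omega⟩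
  have h0 : (0 : ZMod k).val = 0 := ZMod.val_zero
  have hlt : ∀ i : ZMod k, i.val < k := fun i => ZMod.val_lt i
  have hval : ∀ i j : ZMod k, i.val = j.val → i = j := fun i j h => ZMod.val_injective k h
  have hr := V_inl k 0
  apply rep_of_cells (sun k) _ (idxV k) (sV k) (eV k) (rhoV k)
  · rintro (i | i) (j | j) h <;> have hi := hlt i <;> have hj := hlt j
    · have := V_inl k i; have := V_inl k j
      rw [hval i j (by omega)]
    · have := V_inl k i; have := V_inr k j
      omega
    · have := V_inr k i; have := V_inl k j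
      omega
    · rw [hval i j h]
  · rintro (i | i) <;> have hi := hlt i
    · have := V_inl k i; omega
    · have := V_inr k i; omega
  · rintro (i | i) <;> have hi := hlt i
    · have := V_inl k i; omega
    · have := V_inr k i; omega
  · rintro (i | i) <;> have hi := hlt i
    · have := V_inl k i; omega
    · have := V_inr k i; omega
  · rintro (i | i) <;> have hi := hlt i
    · have := V_inl k i; omega
    · have := V_inr k i; omega
  · intro j
    have := rhoV_spec k j
    omega
  · rintro (i | i) (j | j) hidx hadj <;> have hi := hlt i <;> have hj := hlt j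
    · rw [sun_ll hk] at hadj
      have h1 := V_inl k i; have h2 := V_inl k j
      by_cases hj0 : j.val = 0
      · by_cases hi1 : i.val = 1
        · have := rhoV_spec k 3
          exact ⟨3, by omega⟩
        · have := rhoV_spec k (4 * k - 5)
          exact ⟨4 * k - 5, by omega⟩
      · have := rhoV_spec k (4 * i.val + 1)
        exact ⟨4 * i.val + 1, by omega⟩
    · exfalso
      have h1 := V_inl k i; have h2 := V_inr k j
      omega
    · rw [sun_rl hk] at hadj
      have h1 := V_inr k i; have h2 := V_inl k j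
      by_cases hj0 : j.val = 0
      · by_cases hi0 : i.val = 0
        · have := rhoV_spec k 0
          exact ⟨0, by omega⟩
        · have := rhoV_spec k (4 * k - 2)
          exact ⟨4 * k - 2, by omega⟩
      · by_cases hij : j.val = i.val
        · have := rhoV_spec k (4 * i.val)
          exact ⟨4 * i.val, by omega⟩
        · have := rhoV_spec k (4 * i.val + 1)
          exact ⟨4 * i.val + 1, by omega⟩
    · exact absurd hadj (sun_rr _ _)
  · rintro (i | i) (j | j) hidx hadj <;> have hi := hlt i <;> have hj := hlt j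
    · rw [sun_ll hk] at hadj
      have h1 := V_inl k i; have h2 := V_inl k j
      by_cases hj0 : j.val = 0
      · right; right
        intro c hc1 hc2
        have := rhoV_spec k c
        omega
      · omega
    · exfalso
      have h1 := V_inl k i; have h2 := V_inr k j
      omega
    · rw [sun_rl hk] at hadj
      have h1 := V_inr k i; have h2 := V_inl k j
      by_cases hj0 : j.val = 0
      · right; right
        intro c hc1 hc2
        have := rhoV_spec k c
        omega
      · omega
    · have h1 := V_inr k i; have h2 := V_inr k j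
      omega
  · rintro (i | i) <;> have hi := hlt i
    · have h1 := V_inl k i
      by_cases hi0 : i.val = 0
      · refine ⟨4 * k - 1, by omega, by omega, ?_⟩
        rintro (a | a) ha <;> have ha' := hlt a
        · have := V_inl k a; omega
        · have := V_inr k a; omega
      · refine ⟨4 * i.val - 1, by omega, by omega, ?_⟩
        rintro (a | a) ha <;> have ha' := hlt a
        · have := V_inl k a; omega
        · have := V_inr k a; omega
    · have h1 := V_inr k i
      refine ⟨4 * i.val, by omega, by omega, ?_⟩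
      rintro (a | a) ha <;> have ha' := hlt a
      · have := V_inl k a; omega
      · have := V_inr k a; omega

theorem sun_rep_u {k : ℕ} (hk : 3 ≤ k) : Rep (sun k) univ (Sum.inr 0) := by
  have : NeZero k := ⟨by omega⟩
  have h0 : (0 : ZMod k).val = 0 := ZMod.val_zero
  have hlt : ∀ i : ZMod k, i.val < k := fun i => ZMod.val_lt i
  have hval : ∀ i j : ZMod k, i.val = j.val → i = j := fun i j h => ZMod.val_injective k h
  have hr := U_inr k 0
  apply rep_of_cells (sun k) _ (idxU k) (sU k) (eU k) (rhoU k)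
  · rintro (i | i) (j | j) h <;> have hi := hlt i <;> have hj := hlt j
    · have := U_inl hk i; have := U_inl hk j
      rw [hval i j (by omega)]
    · have := U_inl hk i; have := U_inr k j
      omega
    · have := U_inr k i; have := U_inl hk j
      omega
    · have := U_inr k i; have := U_inr k j
      rw [hval i j (by omega)]
  · rintro (i | i) <;> have hi := hlt i
    · have := U_inl hk i; omega
    · have := U_inr k i; omega
  · rintro (i | i) <;> have hi := hlt i
    · have := U_inl hk i; omega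
    · have := U_inr k i; omega
  · rintro (i | i) <;> have hi := hlt i
    · have := U_inl hk i; omega
    · have := U_inr k i; omega
  · rintro (i | i) <;> have hi := hlt i
    · have := U_inl hk i; omega
    · have := U_inr k i; omega
  · intro j
    have := rhoU_spec k j
    omega
  · rintro (i | i) (j | j) hidx hadj <;> have hi := hlt i <;> have hj := hlt j
    · rw [sun_ll hk] at hadj
      have h1 := U_inl hk i; have h2 := U_inl hk j
      by_cases hj0 : j.val = 0
      · by_cases hi1 : i.val = 1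
        · have := rhoU_spec k 2
          exact ⟨2, by omega⟩
        · have := rhoU_spec k (4 * k - 5)
          exact ⟨4 * k - 5, by omega⟩
      · have := rhoU_spec k (4 * i.val + 1)
        exact ⟨4 * i.val + 1, by omega⟩
    · rw [sun_lr hk] at hadj
      have h1 := U_inl hk i; have h2 := U_inr k j
      by_cases hi0 : i.val = 0
      · have := rhoU_spec k (4 * k)
        exact ⟨4 * k, by omega⟩
      · have := rhoU_spec k 0
        exact ⟨0, by omega⟩
    · rw [sun_rl hk] at hadj
      have h1 := U_inr k i; have h2 := U_inl hk j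
      by_cases hj0 : j.val = 0
      · have := rhoU_spec k (4 * k - 2)
        exact ⟨4 * k - 2, by omega⟩
      · by_cases hij : j.val = i.val
        · have := rhoU_spec k (4 * i.val)
          exact ⟨4 * i.val, by omega⟩
        · have := rhoU_spec k (4 * i.val + 1)
          exact ⟨4 * i.val + 1, by omega⟩
    · exact absurd hadj (sun_rr _ _)
  · rintro (i | i) (j | j) hidx hadj <;> have hi := hlt i <;> have hj := hlt j
    · rw [sun_ll hk] at hadj
      have h1 := U_inl hk i; have h2 := U_inl hk j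
      by_cases hj0 : j.val = 0
      · right; right
        intro c hc1 hc2
        have := rhoU_spec k c
        omega
      · omega
    · rw [sun_lr hk] at hadj
      have h1 := U_inl hk i; have h2 := U_inr k j
      right; right
      intro c hc1 hc2
      have := rhoU_spec k c
      omega
    · rw [sun_rl hk] at hadj
      have h1 := U_inr k i; have h2 := U_inl hk j
      by_cases hj0 : j.val = 0
      · right; right
        intro c hc1 hc2
        have := rhoU_spec k c
        omega
      · omega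
    · have h1 := U_inr k i; have h2 := U_inr k j
      by_cases hj0 : j.val = 0
      · right; right
        intro c hc1 hc2
        have := rhoU_spec k c
        omega
      · omega
  · rintro (i | i) <;> have hi := hlt i
    · have h1 := U_inl hk i
      by_cases hi0 : i.val = 0
      · refine ⟨4 * k - 1, by omega, by omega, ?_⟩
        rintro (a | a) ha <;> have ha' := hlt a
        · have := U_inl hk a; omega
        · have := U_inr k a; omega
      · refine ⟨4 * i.val - 1, by omega, by omega, ?_⟩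
        rintro (a | a) ha <;> have ha' := hlt a
        · have := U_inl hk a; omega
        · have := U_inr k a; omega
    · have h1 := U_inr k i
      by_cases hi0 : i.val = 0
      · refine ⟨4 * k + 1, by omega, by omega, ?_⟩
        rintro (a | a) ha <;> have ha' := hlt a
        · have := U_inl hk a; omega
        · have := U_inr k a; omega
      · refine ⟨4 * i.val, by omega, by omega, ?_⟩
        rintro (a | a) ha <;> have ha' := hlt a
        · have := U_inl hk a; omega
        · have := U_inr k a; omega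


/-! ### Transport along isomorphisms -/

theorem rep_of_iso {V U : Type*} (G : SimpleGraph V) (H : SimpleGraph U) (B : Set V)
    (e : G.induce B ≃g H) (r : B) (h : Rep H univ (e r)) : Rep G B (r : V) := by
  classical
  obtain ⟨idx, K, hK, inj, top, rep⟩ := h
  let f : V → U := fun v => if hv : v ∈ B then e ⟨v, hv⟩ else e r
  have hf : ∀ v (hv : v ∈ B), f v = e ⟨v, hv⟩ := fun v hv => dif_pos hv
  have hfr : f (r : V) = e r := by rw [hf _ r.2]
  have hadj : ∀ a ∈ B, ∀ b ∈ B, (H.Adj (f a) (f b) ↔ G.Adj a b) := by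
    intro a ha b hb
    rw [hf a ha, hf b hb, e.map_adj_iff]
    simp
  refine ⟨fun v => idx (f v), K, hK, ?_, ?_, ?_⟩
  · intro a ha b hb hab
    have h1 : f a = f b := inj (mem_univ _) (mem_univ _) hab
    rw [hf a ha, hf b hb] at h1
    have h2 := e.injective h1
    simpa using h2
  · intro w _
    change idx (f w) ≤ idx (f r)
    rw [hfr]
    exact top _ (mem_univ _)
  · intro M hM hMpos
    obtain ⟨l, R, lr, cont, adj, pt, len⟩ := rep M hM hMpos
    refine ⟨fun v => l (f v), fun v => R (f v), fun w _ => lr _ (mem_univ _), fun w _ => ?_,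
      ?_, ?_, ?_⟩
    · change l (f r) ≤ l (f w) ∧ R (f w) ≤ R (f r)
      rw [hfr]; exact cont _ (mem_univ _)
    · intro a ha b hb hab
      have := adj (f a) (mem_univ _) (f b) (mem_univ _) hab
      rw [hadj a ha b hb] at this
      exact this
    · intro w _
      obtain ⟨p, h1, h2, h3⟩ := pt (f w) (mem_univ _)
      exact ⟨p, h1, h2, fun a _ haw => h3 (f a) (mem_univ _) haw⟩
    · change R (f r) - l (f r) ≤ K * M (idx (f r))
      rw [hfr]; exact len

theorem rep_of_sun {V : Type*} (G : SimpleGraph V) (B : Set V) {k : ℕ} (hk : 3 ≤ k)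
    (e : G.induce B ≃g sun k) (r : V) (hr : r ∈ B) : Rep G B r := by
  rcases h : e ⟨r, hr⟩ with c | c
  · apply rep_of_iso G (sun k) B (e.trans (sunRot k c)) ⟨r, hr⟩
    have : (e.trans (sunRot k c)) ⟨r, hr⟩ = Sum.inl 0 := by
      rw [RelIso.trans_apply, h]
      simp [sunRot]
    rw [this]
    exact sun_rep_v hk
  · apply rep_of_iso G (sun k) B (e.trans (sunRot k c)) ⟨r, hr⟩
    have : (e.trans (sunRot k c)) ⟨r, hr⟩ = Sum.inr 0 := by
      rw [RelIso.trans_apply, h]
      simp [sunRot]
    rw [this]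
    exact sun_rep_u hk

/-! ### From rooted representations to tolerance representations -/

theorem exists_seq {φ : ℝ → ℝ → ℝ} (hφ : IsArchimedeanFun φ) (K : ℝ) :
    ∃ τ M : ℕ → ℝ, (∀ n, 0 < τ n) ∧ (∀ n, 0 < M n) ∧ Monotone M ∧
      ∀ a b, a < b → φ (τ a) (τ b) ≤ M b ∧ K * M (b - 1) < φ (τ a) (τ b) := by
  obtain ⟨f, hf1, hf2⟩ := exists_seq_of_forall_finset_exists
    (fun x : ℝ × ℝ × ℝ => 0 < x.1 ∧ 0 < x.2.1)
    (fun x y => K * x.2.1 < y.2.2 ∧ y.2.2 < φ x.1 y.1 ∧ φ x.1 y.1 ≤ y.2.1 ∧ x.2.1 ≤ y.2.1)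
    (by
      intro s hs
      obtain ⟨c, hc⟩ : ∃ c : ℝ, ∀ x ∈ s, K * x.2.1 < c := by
        have h1 : ∀ᶠ c : ℝ in atTop, ∀ x ∈ s, K * x.2.1 < c := by
          rw [Filter.eventually_all_finset]
          intro x _
          exact eventually_gt_atTop _
        exact h1.exists
      obtain ⟨t, ht, ht0⟩ : ∃ t : ℝ, (∀ x ∈ s, c < φ x.1 t) ∧ 0 < t := by
        have h1 : ∀ᶠ t : ℝ in atTop, ∀ x ∈ s, c < φ x.1 t := by
          rw [Filter.eventually_all_finset]
          intro x hx
          exact (hφ.right x.1 (hs x hx).1).eventually_gt_atTop c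
        exact (h1.and (eventually_gt_atTop 0)).exists
      obtain ⟨m, hm, hm0⟩ : ∃ m : ℝ, (∀ x ∈ s, φ x.1 t ≤ m ∧ x.2.1 ≤ m) ∧ 0 < m := by
        have h1 : ∀ᶠ m : ℝ in atTop, ∀ x ∈ s, φ x.1 t ≤ m ∧ x.2.1 ≤ m := by
          rw [Filter.eventually_all_finset]
          intro x _
          exact (eventually_ge_atTop _).and (eventually_ge_atTop _)
        exact (h1.and (eventually_gt_atTop 0)).exists
      exact ⟨(t, m, c), ⟨ht0, hm0⟩, fun x hx => ⟨hc x hx, ht x hx, (hm x hx).1, (hm x hx).2⟩⟩)
  refine ⟨fun n => (f n).1, fun n => (f n).2.1, fun n => (hf1 n).1, fun n => (hf1 n).2, ?_, ?_⟩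
  · intro a b hab
    rcases hab.eq_or_lt with h | h
    · rw [h]
    · exact (hf2 a b h).2.2.2
  · intro a b hab
    have h1 := hf2 a b hab
    have h2 := hf2 (b - 1) b (by omega)
    exact ⟨h1.2.2.1, h2.1.trans h1.2.1⟩

/-- `G` restricted to `W` is a `φ`-tolerance graph. -/
def Tol {V : Type*} (φ : ℝ → ℝ → ℝ) (G : SimpleGraph V) (W : Set V) : Prop :=
  ∃ l r t : V → ℝ, (∀ v ∈ W, l v ≤ r v) ∧ (∀ v ∈ W, 0 < t v) ∧
    ∀ u ∈ W, ∀ v ∈ W, u ≠ v → (G.Adj u v ↔ φ (t u) (t v) ≤ ov (l u) (r u) (l v) (r v))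

theorem tol_of_rep {V : Type*} {φ : ℝ → ℝ → ℝ} (hφ : IsArchimedeanFun φ) (G : SimpleGraph V)
    (W : Set V) (r : V) (h : Rep G W r) : Tol φ G W := by
  obtain ⟨idx, K, hK, inj, top, rep⟩ := h
  obtain ⟨τ, M, hτ, hMpos, hM, hseq⟩ := exists_seq hφ K
  obtain ⟨l, R, lr, cont, adj, pt, len⟩ := rep M hM hMpos
  have key : ∀ u ∈ W, ∀ v ∈ W, idx u < idx v →
      (G.Adj u v ↔ φ (τ (idx u)) (τ (idx v)) ≤ ov (l u) (R u) (l v) (R v)) := by
    intro u hu v hv huv
    obtain ⟨h1, h2⟩ := adj u hu v hv huv
    obtain ⟨h3, h4⟩ := hseq _ _ huv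
    constructor
    · intro h; exact h3.trans (h1 h)
    · intro h
      by_contra hn
      have := h2 hn
      linarith
  refine ⟨l, R, fun v => τ (idx v), lr, fun v _ => hτ _, ?_⟩
  intro u hu v hv huv
  have hne : idx u ≠ idx v := fun h => huv (inj hu hv h)
  rcases lt_or_gt_of_ne hne with h | h
  · exact key u hu v hv h
  · rw [G.adj_comm, ov_comm, hφ.symm _ _ (hτ _) (hτ _)]
    exact key v hv u hu h

theorem tol_union {V : Type*} [Finite V] {φ : ℝ → ℝ → ℝ} (hφ : IsArchimedeanFun φ)
    (G : SimpleGraph V) (A W : Set V) (hAW : A ⊆ W)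
    (hno : ∀ a ∈ A, ∀ b ∈ W \ A, ¬ G.Adj a b)
    (h1 : Tol φ G A) (h2 : Tol φ G (W \ A)) : Tol φ G W := by
  classical
  obtain ⟨l1, r1, t1, lr1, tp1, ad1⟩ := h1
  obtain ⟨l2, r2, t2, lr2, tp2, ad2⟩ := h2
  obtain ⟨c1, hc1⟩ : ∃ c, ∀ v, r1 v ≤ c := (Set.finite_range r1).bddAbove.imp
    fun c hc v => hc ⟨v, rfl⟩
  obtain ⟨c2, hc2⟩ : ∃ c, ∀ v, c ≤ l2 v := (Set.finite_range l2).bddBelow.imp
    fun c hc v => hc ⟨v, rfl⟩
  set s := c1 - c2 + 1 with hs
  refine ⟨fun v => if v ∈ A then l1 v else l2 v + s, fun v => if v ∈ A then r1 v else r2 v + s,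
    fun v => if v ∈ A then t1 v else t2 v, ?_, ?_, ?_⟩
  · intro v hv
    by_cases h : v ∈ A
    · simp only [h, if_true]; exact lr1 v h
    · simp only [h, if_false]
      have := lr2 v ⟨hv, h⟩
      linarith
  · intro v hv
    by_cases h : v ∈ A
    · simp only [h, if_true]; exact tp1 v h
    · simp only [h, if_false]; exact tp2 v ⟨hv, h⟩
  · intro u hu v hv huv
    by_cases h : u ∈ A <;> by_cases h' : v ∈ A
    · simp only [h, h', if_true]; exact ad1 u h v h' huv
    · simp only [h, h', if_true, if_false]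
      have h3 : ov (l1 u) (r1 u) (l2 v + s) (r2 v + s) = 0 := by
        apply ov_zero
        left
        have := hc1 u
        have := hc2 v
        linarith
      rw [h3]
      have h4 := hφ.pos _ _ (tp1 u h) (tp2 v ⟨hv, h'⟩)
      constructor
      · intro h5; exact absurd h5 (hno u h v ⟨hv, h'⟩)
      · intro h5; linarith
    · simp only [h, h', if_true, if_false]
      have h3 : ov (l2 u + s) (r2 u + s) (l1 v) (r1 v) = 0 := by
        apply ov_zero
        right
        have := hc1 v
        have := hc2 u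
        linarith
      rw [h3]
      have h4 := hφ.pos _ _ (tp2 u ⟨hu, h⟩) (tp1 v h')
      constructor
      · intro h5; exact absurd h5.symm (hno v h' u ⟨hu, h⟩)
      · intro h5; linarith
    · simp only [h, h', if_false]
      rw [ov_add]
      exact ad2 u ⟨hu, h⟩ v ⟨hv, h'⟩ huv

theorem tol_main {V : Type*} [Finite V] {φ : ℝ → ℝ → ℝ} (hφ : IsArchimedeanFun φ)
    (G : SimpleGraph V) : ∀ (n : ℕ) (W : Set V), W.ncard = n →
      (∀ B, Maximal (fun B => B ⊆ W ∧ CNC G B) B → ∀ r ∈ B, Rep G B r) → Tol φ G W := by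
  intro n
  induction n using Nat.strong_induction_on with
  | _ n ih =>
    intro W hn hB
    rcases W.eq_empty_or_nonempty with hW | ⟨r, hr⟩
    · subst hW
      exact ⟨fun _ => 0, fun _ => 0, fun _ => 1, by simp, by simp, by simp⟩
    · by_cases hconn : CutConn G W
      · exact tol_of_rep hφ G W r
          (blocks_induction G (Rep G) (rep_glue G) n W hn hconn hB r hr)
      · unfold CutConn at hconn
        push Not at hconn
        obtain ⟨A, hA, hAne, hBne, hno⟩ := hconn
        -- a block of one part is a block of the whole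
        have hpart : ∀ A', A' ⊆ W → (∀ a ∈ A', ∀ b ∈ W \ A', ¬ G.Adj a b) →
            ∀ B, Maximal (fun B => B ⊆ A' ∧ CNC G B) B → ∀ r ∈ B, Rep G B r := by
          intro A' hA' hno' B hBmax
          apply hB
          refine ⟨⟨hBmax.1.1.trans hA', hBmax.1.2⟩, ?_⟩
          rintro B' ⟨hB'W, hB'⟩ hBB'
          refine hBmax.2 ⟨?_, hB'⟩ hBB'
          by_contra hsub
          obtain ⟨x, hx1, hx2⟩ := not_subset.mp hsub
          obtain ⟨y, hy⟩ := hBmax.1.2.1
          obtain ⟨a, ha, b, hb, hab⟩ := hB'.2.1 (B' ∩ A') inter_subset_left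
            ⟨y, hBB' hy, hBmax.1.1 hy⟩ ⟨x, hx1, fun h => hx2 h.2⟩
          exact hno' a ha.2 b ⟨hB'W hb.1, fun h => hb.2 ⟨hb.1, h⟩⟩ hab
        have hno' : ∀ a ∈ W \ A, ∀ b ∈ W \ (W \ A), ¬ G.Adj a b := by
          intro a ha b hb hab
          have hbA : b ∈ A := by
            by_contra h
            exact hb.2 ⟨hb.1, h⟩
          exact hno b hbA a ha hab.symm
        have hcard1 : A.ncard < n := by
          rw [← hn]
          apply ncard_lt_ncard _ (toFinite W)
          obtain ⟨b, hb⟩ := hBne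
          exact ⟨hA, fun h => hb.2 (h hb.1)⟩
        have hcard2 : (W \ A).ncard < n := by
          rw [← hn]
          apply ncard_lt_ncard _ (toFinite W)
          obtain ⟨a, ha⟩ := hAne
          exact ⟨diff_subset, fun h => (h (hA ha)).2 ha⟩
        exact tol_union hφ G A W hA hno (ih _ hcard1 A rfl (hpart A hA hno))
          (ih _ hcard2 (W \ A) rfl (hpart (W \ A) diff_subset hno'))

/-- Every finite graph each of whose blocks is isomorphic to a chordless sun is Archimedean. -/
theorem result {V : Type*} [Finite V] (G : SimpleGraph V)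
    (h : ∀ B : Set V, IsBlock G B → ∃ k : ℕ, 3 ≤ k ∧ Nonempty (G.induce B ≃g sun k)) :
    IsArchimedeanGraph G := by
  intro φ hφ
  have hcnc : ∀ B, ConnNoCut G B ↔ CNC G B := by
    intro B
    unfold ConnNoCut CNC
    rw [SimpleGraph.connected_iff, preconnected_iff]
    constructor
    · rintro ⟨⟨h1, ⟨x⟩⟩, h3⟩
      exact ⟨⟨x, x.2⟩, h1, fun v hv => (preconnected_iff G _).mp (h3 v hv)⟩
    · rintro ⟨⟨x, hx⟩, h1, h3⟩
      exact ⟨⟨h1, ⟨⟨x, hx⟩⟩⟩, fun v hv => (preconnected_iff G _).mpr (h3 v hv)⟩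
  obtain ⟨l, r, t, h1, h2, h3⟩ := tol_main hφ G _ univ rfl (by
    intro B hBmax r hr
    have hBlock : IsBlock G B := by
      refine ⟨(hcnc B).mpr hBmax.1.2, ?_⟩
      intro B' hB' hBB'
      exact hBmax.2 ⟨subset_univ _, (hcnc B').mp hB'⟩ hBB'
    obtain ⟨k, hk, ⟨e⟩⟩ := h B hBlock
    exact rep_of_sun G B hk e r hr)
  refine ⟨l, r, t, fun v => h1 v (mem_univ _), fun v => h2 v (mem_univ _), ?_⟩
  intro u v huv
  rw [interLength_eq]
  exact h3 u (mem_univ _) v (mem_univ _) huv

end Pool.Agent.Results.MP_2a9c9f_co.SunBlocks
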